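import Mathlib

/-!
Abstract combinatorial core of the counterexample to Hamidoune's conjecture on k-atoms.

`X` and `W` are finite sets with no unique product, `D` is a set of centres of holes,
`H = X⁻¹ * D`, `S = W \ H`.  Under the listed hypotheses every set `A` with
`|A| = |X| - 1` has `|A * S| ≥ |X * S|`.
-/

set_option autoImplicit false
open Pointwise Finset

namespace Pool.Agent.Lib.MP_587a88_co

variable {G : Type} [Group G] [DecidableEq G]

lemma mem_holes {X D : Finset G} {z : G} :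
    z ∈ X⁻¹ * D ↔ ∃ y ∈ X, ∃ d ∈ D, z = y⁻¹ * d := by
  constructor
  · intro h
    obtain ⟨u, hu, d, hd, rfl⟩ := Finset.mem_mul.1 h
    refine ⟨u⁻¹, by simpa using hu, d, hd, by simp⟩
  · rintro ⟨y, hy, d, hd, rfl⟩
    exact Finset.mul_mem_mul (by simpa using hy) hd

lemma stepA (X W D : Finset G) (hX : X.Nonempty)
    (h3 : ∀ y ∈ X, ∀ d ∈ D, y⁻¹ * d ∈ W) :
    (X * (W \ (X⁻¹ * D))).card + D.card ≤ (X * W).card := by
  rw [← Finset.card_union_of_disjoint]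
  · apply Finset.card_le_card
    intro z hz
    rcases Finset.mem_union.1 hz with hz | hz
    · exact Finset.mul_subset_mul_left Finset.sdiff_subset hz
    · obtain ⟨x, hx⟩ := hX
      have : z = x * (x⁻¹ * z) := by simp
      rw [this]
      exact Finset.mul_mem_mul hx (h3 x hx z hz)
  · rw [Finset.disjoint_left]
    intro z hz hzD
    obtain ⟨x, hx, s, hs, rfl⟩ := Finset.mem_mul.1 hz
    apply (Finset.mem_sdiff.1 hs).2
    exact mem_holes.2 ⟨x, hx, x * s, hzD, by simp⟩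

lemma stepB (X W D A : Finset G)
    (h1 : ∀ x ∈ X, ∀ w ∈ W, ∃ x' ∈ X, x' ≠ x ∧ x'⁻¹ * (x * w) ∈ W)
    (h2 : ∀ a ∈ X, ∀ y ∈ X, a ≠ y → ∃ u ∈ X, ∃ v ∈ X, u ≠ v ∧
      (a * y⁻¹)⁻¹ * u ∉ X ∧ (a * y⁻¹)⁻¹ * v ∉ X)
    (h3 : ∀ a ∈ X, ∀ a' ∈ X, ∀ y ∈ X, ∀ d ∈ D, a'⁻¹ * a * y⁻¹ * d ∈ W)
    (h4 : ∀ d ∈ D, ∀ d' ∈ D, ∀ y' ∈ X, ∀ a' ∈ X, ∀ a ∈ X, ∀ y ∈ X,
      d' * d⁻¹ = y' * a'⁻¹ * a * y⁻¹ → d' = d)
    (hA : A ⊆ X) (hc : A.card + 1 = X.card) :
    X * (W \ (X⁻¹ * D)) ⊆ A * (W \ (X⁻¹ * D)) := by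
  intro z hz
  obtain ⟨x, hx, s, hs, rfl⟩ := Finset.mem_mul.1 hz
  by_contra hnot
  have hno : ∀ a ∈ A, a⁻¹ * (x * s) ∉ W \ (X⁻¹ * D) := by
    intro a ha h
    apply hnot
    have : x * s = a * (a⁻¹ * (x * s)) := by simp
    rw [this]
    exact Finset.mul_mem_mul ha h
  have hxA : x ∉ A := by
    intro h
    apply hno x h
    simpa using hs
  have hrest : ∀ u ∈ X, u ≠ x → u ∈ A := by
    intro u hu hux
    by_contra huA
    have hsub : insert u (insert x A) ⊆ X := by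
      intro t ht
      simp only [Finset.mem_insert] at ht
      rcases ht with rfl | rfl | ht
      · exact hu
      · exact hx
      · exact hA ht
    have := Finset.card_le_card hsub
    rw [Finset.card_insert_of_notMem (by simp [hux, huA]),
      Finset.card_insert_of_notMem hxA] at this
    omega
  obtain ⟨a, ha, hax, haW⟩ := h1 x hx s (Finset.mem_sdiff.1 hs).1
  have haA := hrest a ha hax
  have haH : a⁻¹ * (x * s) ∈ X⁻¹ * D := by
    by_contra h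
    exact hno a haA (Finset.mem_sdiff.2 ⟨haW, h⟩)
  obtain ⟨y, hy, d, hd, hyd⟩ := mem_holes.1 haH
  have hz' : x * s = a * y⁻¹ * d := by
    rw [mul_assoc, ← hyd]; simp
  have hall : ∀ a' ∈ A, (a * y⁻¹)⁻¹ * a' ∈ X := by
    intro a' ha'
    have hW : a'⁻¹ * (x * s) ∈ W := by
      rw [hz']
      have := h3 a ha a' (hA ha') y hy d hd
      simpa [mul_assoc] using this
    have hH : a'⁻¹ * (x * s) ∈ X⁻¹ * D := by
      by_contra h
      exact hno a' ha' (Finset.mem_sdiff.2 ⟨hW, h⟩)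
    obtain ⟨y', hy', d', hd', hyd'⟩ := mem_holes.1 hH
    rw [hz'] at hyd'
    have e1 : d' = y' * (a'⁻¹ * (a * y⁻¹ * d)) := by rw [hyd']; simp
    have e2 : d' * d⁻¹ = y' * a'⁻¹ * a * y⁻¹ := by rw [e1]; simp [mul_assoc]
    have e3 := h4 d hd d' hd' y' hy' a' (hA ha') a ha y hy e2
    rw [e3] at e2
    have e4 : (a * y⁻¹)⁻¹ * a' = y' := by
      have : y' * a'⁻¹ * a * y⁻¹ = 1 := by rw [← e2]; simp
      have h5 : y' = (a'⁻¹ * a * y⁻¹)⁻¹ := by
        rw [eq_inv_iff_mul_eq_one]; simpa [mul_assoc] using this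
      rw [h5]; simp [mul_assoc]
    rw [e4]; exact hy'
  by_cases hay : a = y
  · subst hay
    apply (Finset.mem_sdiff.1 hs).2
    refine mem_holes.2 ⟨x, hx, d, hd, ?_⟩
    have : x * s = d := by rw [hz']; simp
    rw [← this]; simp
  · obtain ⟨u, hu, v, hv, huv, hu', hv'⟩ := h2 a ha y hy hay
    by_cases hux : u = x
    · have : v ≠ x := fun h => huv (hux.trans h.symm)
      exact hv' (hall v (hrest v hv this))
    · exact hu' (hall u (hrest u hu hux))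

lemma stepC (X W D A : Finset G) (ρ : ℕ) (hA : A.Nonempty)
    (h5 : ∀ g : G, g ≠ 1 → (D.filter (fun d => g * d ∈ D)).card ≤ ρ)
    (hnot : ∀ h : G, ∃ a ∈ A, h⁻¹ * a ∉ X)
    (hsmall : ∀ a ∈ A, ∀ a' ∈ A, ∀ y ∈ X, ∀ d ∈ D, a'⁻¹ * a * (y⁻¹ * d) ∈ W) :
    W.card ≤ (A * (W \ (X⁻¹ * D))).card + X.card * X.card * ρ := by
  obtain ⟨a0, ha0⟩ := hA
  choose a1 ha1 ha1' using hnot
  set Z : Finset G := (X ×ˢ X).biUnion (fun p =>
    (D.filter (fun d => (p.2 * (a1 (a0 * p.1⁻¹))⁻¹ * (a0 * p.1⁻¹)) * d ∈ D)).image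
      (fun d => a0 * p.1⁻¹ * d)) with hZ
  have hZc : Z.card ≤ X.card * X.card * ρ := by
    rw [← Finset.card_product]
    apply Finset.card_biUnion_le_card_mul
    rintro ⟨y, y'⟩ hp
    refine Finset.card_image_le.trans (h5 _ ?_)
    intro h
    apply ha1' (a0 * y⁻¹)
    have hy' : y' ∈ X := (Finset.mem_product.1 hp).2
    have : (a0 * y⁻¹)⁻¹ * a1 (a0 * y⁻¹) = y' := by
      have h5 : y' = ((a1 (a0 * y⁻¹))⁻¹ * (a0 * y⁻¹))⁻¹ := by
        rw [eq_inv_iff_mul_eq_one]; simpa [mul_assoc] using h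
      rw [h5]; simp [mul_assoc]
    rw [this]; exact hy'
  have hsub : W.image (fun w => a0 * w) ⊆ A * (W \ (X⁻¹ * D)) ∪ Z := by
    intro z hz
    obtain ⟨w, hw, rfl⟩ := Finset.mem_image.1 hz
    by_cases hwH : w ∈ X⁻¹ * D
    · obtain ⟨y, hy, d, hd, rfl⟩ := mem_holes.1 hwH
      have hW := hsmall a0 ha0 (a1 (a0 * y⁻¹)) (ha1 _) y hy d hd
      by_cases hH : (a1 (a0 * y⁻¹))⁻¹ * a0 * (y⁻¹ * d) ∈ X⁻¹ * D
      · obtain ⟨y', hy', d', hd', e⟩ := mem_holes.1 hH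
        apply Finset.mem_union_right
        rw [hZ, Finset.mem_biUnion]
        refine ⟨(y, y'), Finset.mem_product.2 ⟨hy, hy'⟩, ?_⟩
        refine Finset.mem_image.2 ⟨d, Finset.mem_filter.2 ⟨hd, ?_⟩, by simp [mul_assoc]⟩
        have : y' * (a1 (a0 * y⁻¹))⁻¹ * (a0 * y⁻¹) * d = d' := by
          have e' : d' = y' * ((a1 (a0 * y⁻¹))⁻¹ * a0 * (y⁻¹ * d)) := by rw [e]; simp
          rw [e']; simp [mul_assoc]
        simpa [this] using hd'
      · apply Finset.mem_union_left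
        have : a0 * (y⁻¹ * d) = a1 (a0 * y⁻¹) * ((a1 (a0 * y⁻¹))⁻¹ * a0 * (y⁻¹ * d)) := by
          simp [mul_assoc]
        rw [this]
        exact Finset.mul_mem_mul (ha1 _) (Finset.mem_sdiff.2 ⟨hW, hH⟩)
    · apply Finset.mem_union_left
      exact Finset.mul_mem_mul ha0 (Finset.mem_sdiff.2 ⟨hw, hwH⟩)
  have := Finset.card_le_card hsub
  rw [Finset.card_image_of_injective _ (mul_right_injective a0)] at this
  have h2 := Finset.card_union_le (A * (W \ (X⁻¹ * D))) Z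
  omega

lemma stepD (X W D A : Finset G) (τ : ℕ) (a a' : G) (ha : a ∈ A) (ha' : a' ∈ A)
    (h : τ ≤ ((W.image (fun w => a'⁻¹ * a * w)) \ W).card) :
    W.card + τ ≤ (A * (W \ (X⁻¹ * D))).card + 2 * X.card * D.card := by
  have hH : (X⁻¹ * D).card ≤ X.card * D.card := by
    refine Finset.card_mul_le.trans ?_
    simp
  have h1 : ((W.image (fun w => a'⁻¹ * a * w)) ∪ W).card =
      ((W.image (fun w => a'⁻¹ * a * w)) \ W).card + W.card := by
    rw [← Finset.card_union_of_disjoint Finset.sdiff_disjoint]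
    simp
  have hsub : ((W.image (fun w => a'⁻¹ * a * w)) ∪ W).image (fun z => a' * z) ⊆
      A * (W \ (X⁻¹ * D)) ∪
        ((X⁻¹ * D).image (fun z => a * z) ∪ (X⁻¹ * D).image (fun z => a' * z)) := by
    intro z hz
    obtain ⟨t, ht, rfl⟩ := Finset.mem_image.1 hz
    rcases Finset.mem_union.1 ht with ht | ht
    · obtain ⟨w, hw, rfl⟩ := Finset.mem_image.1 ht
      have : a' * (a'⁻¹ * a * w) = a * w := by simp [mul_assoc]
      rw [this]
      by_cases hwH : w ∈ X⁻¹ * D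
      · exact Finset.mem_union_right _ (Finset.mem_union_left _ (Finset.mem_image_of_mem _ hwH))
      · exact Finset.mem_union_left _ (Finset.mul_mem_mul ha (Finset.mem_sdiff.2 ⟨hw, hwH⟩))
    · by_cases hwH : t ∈ X⁻¹ * D
      · exact Finset.mem_union_right _ (Finset.mem_union_right _ (Finset.mem_image_of_mem _ hwH))
      · exact Finset.mem_union_left _ (Finset.mul_mem_mul ha' (Finset.mem_sdiff.2 ⟨ht, hwH⟩))
  have h2 := Finset.card_le_card hsub
  rw [Finset.card_image_of_injective _ (mul_right_injective a')] at h2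
  have h3 := Finset.card_union_le (A * (W \ (X⁻¹ * D)))
    ((X⁻¹ * D).image (fun z => a * z) ∪ (X⁻¹ * D).image (fun z => a' * z))
  have h4 := Finset.card_union_le ((X⁻¹ * D).image (fun z => a * z))
    ((X⁻¹ * D).image (fun z => a' * z))
  have h5 : ((X⁻¹ * D).image (fun z => a * z)).card ≤ (X⁻¹ * D).card := Finset.card_image_le
  have h6 : ((X⁻¹ * D).image (fun z => a' * z)).card ≤ (X⁻¹ * D).card := Finset.card_image_le
  have h7 : 2 * X.card * D.card = X.card * D.card + X.card * D.card := by ring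
  omega

theorem abstract_main (X W D : Finset G) (ρ τ : ℕ) (hX : 2 ≤ X.card)
    (h1 : ∀ x ∈ X, ∀ w ∈ W, ∃ x' ∈ X, x' ≠ x ∧ x'⁻¹ * (x * w) ∈ W)
    (h2 : ∀ a ∈ X, ∀ y ∈ X, a ≠ y → ∃ u ∈ X, ∃ v ∈ X, u ≠ v ∧
      (a * y⁻¹)⁻¹ * u ∉ X ∧ (a * y⁻¹)⁻¹ * v ∉ X)
    (h3 : ∀ a ∈ X, ∀ a' ∈ X, ∀ y ∈ X, ∀ d ∈ D, a'⁻¹ * a * y⁻¹ * d ∈ W)
    (h4 : ∀ d ∈ D, ∀ d' ∈ D, ∀ y' ∈ X, ∀ a' ∈ X, ∀ a ∈ X, ∀ y ∈ X,
      d' * d⁻¹ = y' * a'⁻¹ * a * y⁻¹ → d' = d)
    (h5 : ∀ g : G, g ≠ 1 → (D.filter (fun d => g * d ∈ D)).card ≤ ρ)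
    (h6 : ∀ g : G, (∀ y ∈ X, ∀ d ∈ D, g * (y⁻¹ * d) ∈ W) ∨
      τ ≤ ((W.image (fun w => g * w)) \ W).card)
    (h7 : (X * W).card + X.card * X.card * ρ ≤ W.card + D.card)
    (h8 : (X * W).card + 2 * X.card * D.card ≤ W.card + τ + D.card)
    (A : Finset G) (hc : A.card + 1 = X.card) :
    (X * (W \ (X⁻¹ * D))).card ≤ (A * (W \ (X⁻¹ * D))).card := by
  have hXne : X.Nonempty := Finset.card_pos.1 (by omega)
  have hAne : A.Nonempty := Finset.card_pos.1 (by omega)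
  have hstep := stepA X W D hXne (by
    intro y hy d hd
    simpa using h3 y hy y hy y hy d hd)
  by_cases hcase : ∃ h : G, ∀ a ∈ A, h⁻¹ * a ∈ X
  · obtain ⟨h, hh⟩ := hcase
    have hsub : A.image (fun a => h⁻¹ * a) ⊆ X := by
      intro t ht
      obtain ⟨a, ha, rfl⟩ := Finset.mem_image.1 ht
      exact hh a ha
    have hc' : (A.image (fun a => h⁻¹ * a)).card + 1 = X.card := by
      rw [Finset.card_image_of_injective _ (mul_right_injective h⁻¹)]; exact hc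
    have hB := stepB X W D _ h1 h2 h3 h4 hsub hc'
    refine (Finset.card_le_card hB).trans ?_
    have : A.image (fun a => h⁻¹ * a) * (W \ (X⁻¹ * D)) ⊆
        (A * (W \ (X⁻¹ * D))).image (fun z => h⁻¹ * z) := by
      intro z hz
      obtain ⟨t, ht, s, hs, rfl⟩ := Finset.mem_mul.1 hz
      obtain ⟨a, ha, rfl⟩ := Finset.mem_image.1 ht
      exact Finset.mem_image.2 ⟨a * s, Finset.mul_mem_mul ha hs, by simp [mul_assoc]⟩
    exact (Finset.card_le_card this).trans Finset.card_image_le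
  · push Not at hcase
    by_cases hsmall : ∀ a ∈ A, ∀ a' ∈ A, ∀ y ∈ X, ∀ d ∈ D, a'⁻¹ * a * (y⁻¹ * d) ∈ W
    · have := stepC X W D A ρ hAne h5 hcase hsmall
      omega
    · push Not at hsmall
      obtain ⟨a, ha, a', ha', y, hy, d, hd, hn⟩ := hsmall
      rcases h6 (a'⁻¹ * a) with h | h
      · exact absurd (h y hy d hd) hn
      · have := stepD X W D A τ a a' ha ha' h
        omega

end Pool.Agent.Lib.MP_587a88_co
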