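import Pool.Agent.Lib.MP_587a88_co.Promislow

/-!
A pair `X`, `S0` of finite subsets of the Promislow group without unique products, and the
set `D` of centres of holes (a paraboloid written in base `2 b` digits).
-/

set_option autoImplicit false
open Pointwise Finset

namespace Pool.Agent.Lib.MP_587a88_co

def lX : List PG :=
  [⟨-1, -2, 1, by decide⟩, ⟨-1, -1, 2, by decide⟩, ⟨0, -1, 1, by decide⟩,
   ⟨0, 0, 0, by decide⟩, ⟨0, 0, 2, by decide⟩, ⟨0, 1, -1, by decide⟩,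
   ⟨1, -1, 0, by decide⟩, ⟨1, 0, -1, by decide⟩]

def lS : List PG :=
  [⟨-3, 1, 2, by decide⟩, ⟨-2, -2, -2, by decide⟩, ⟨-2, -2, 0, by decide⟩,
   ⟨-2, -2, 2, by decide⟩, ⟨-2, -1, 3, by decide⟩, ⟨-2, 0, 0, by decide⟩,
   ⟨-2, 0, 2, by decide⟩, ⟨-1, -1, -2, by decide⟩, ⟨-1, -1, 0, by decide⟩,
   ⟨-1, 0, -3, by decide⟩, ⟨-1, 0, -1, by decide⟩, ⟨-1, 0, 1, by decide⟩,
   ⟨-1, 1, -2, by decide⟩, ⟨-1, 2, -1, by decide⟩, ⟨-1, 2, 1, by decide⟩,
   ⟨0, -3, -1, by decide⟩, ⟨0, -3, 1, by decide⟩, ⟨0, -2, 0, by decide⟩,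
   ⟨0, -1, -1, by decide⟩, ⟨0, -1, 1, by decide⟩, ⟨0, -1, 3, by decide⟩,
   ⟨0, 0, -2, by decide⟩, ⟨0, 0, 0, by decide⟩, ⟨1, -1, 0, by decide⟩,
   ⟨1, -1, 2, by decide⟩, ⟨1, 0, -3, by decide⟩, ⟨1, 0, 1, by decide⟩,
   ⟨1, 1, 0, by decide⟩, ⟨1, 1, 2, by decide⟩, ⟨1, 2, -1, by decide⟩,
   ⟨1, 2, 1, by decide⟩, ⟨2, -3, -1, by decide⟩, ⟨2, -3, 1, by decide⟩,
   ⟨2, -2, -2, by decide⟩, ⟨2, -1, -1, by decide⟩, ⟨2, -1, 1, by decide⟩,
   ⟨3, 0, -1, by decide⟩]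

def sX : Finset PG := lX.toFinset
def sS : Finset PG := lS.toFinset

lemma sX_card : sX.card = 8 := by decide +kernel

lemma lX_nup : ∀ x ∈ lX, ∀ s ∈ lS, ∃ x' ∈ lX, x' ≠ x ∧ x'⁻¹ * (x * s) ∈ lS := by
  decide +kernel

lemma lX_prog : ∀ a ∈ lX, ∀ y ∈ lX, a ≠ y → ∃ u ∈ lX, ∃ v ∈ lX, u ≠ v ∧
    (a * y⁻¹)⁻¹ * u ∉ lX ∧ (a * y⁻¹)⁻¹ * v ∉ lX := by
  decide +kernel

lemma lX_bd : ∀ x ∈ lX, Bd 2 x := by decide +kernel
lemma lS_bd : ∀ x ∈ lS, Bd 3 x := by decide +kernel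
lemma lS_one : (1 : PG) ∈ lS := by decide +kernel

lemma mem_sX {x : PG} : x ∈ sX ↔ x ∈ lX := List.mem_toFinset
lemma mem_sS {x : PG} : x ∈ sS ↔ x ∈ lS := List.mem_toFinset

lemma digit2 {B p q : ℤ} (h : p + B * q = 0) (hp : |p| < B) : p = 0 ∧ q = 0 := by
  have hB : 0 < B := lt_of_le_of_lt (abs_nonneg p) hp
  have hp0 : p = 0 := Int.eq_zero_of_abs_lt_dvd ⟨-q, by linarith⟩ hp
  refine ⟨hp0, ?_⟩
  rw [hp0, zero_add] at h
  rcases mul_eq_zero.1 h with h | h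
  · omega
  · exact h

lemma digit3 {B p q r : ℤ} (h : p + B * (q + B * r) = 0) (hp : |p| < B) (hq : |q| < B) :
    p = 0 ∧ q = 0 ∧ r = 0 := by
  obtain ⟨h1, h2⟩ := digit2 h hp
  exact ⟨h1, digit2 h2 hq⟩

/-- the quadratic form -/
def qf (y : Fin 7 → ℤ) : ℤ := ∑ i, y i ^ 2

/-- the digit embedding of the paraboloid -/
def emb (b : ℕ) (y : Fin 7 → ℤ) : PG :=
  ⟨10 * (y 0 + 2 * b * (y 1 + 2 * b * y 2)), 10 * (y 3 + 2 * b * (y 4 + 2 * b * y 5)),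
    10 * (y 6 + 2 * b * qf y), by omega⟩

/-- the parameter box -/
noncomputable def par (b : ℕ) : Finset (Fin 7 → ℤ) := Fintype.piFinset (fun _ => Icc (1 : ℤ) b)

lemma mem_par {b : ℕ} {y : Fin 7 → ℤ} : y ∈ par b ↔ ∀ i, 1 ≤ y i ∧ y i ≤ b := by
  simp [par]

lemma card_par (b : ℕ) : (par b).card = b ^ 7 := by
  simp [par]

lemma emb_ev (b : ℕ) (y : Fin 7 → ℤ) : Ev (emb b y) := by
  simp only [Ev, emb]
  omega

lemma mul_inv_ev {v w : PG} (hv : Ev v) (hw : Ev w) :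
    (v * w⁻¹).a = v.a - w.a ∧ (v * w⁻¹).b = v.b - w.b ∧ (v * w⁻¹).c = v.c - w.c := by
  simp only [mul_a, mul_b, mul_c, inv_a, inv_b, inv_c, sg_even hv.1, sg_even hv.2.1,
    sg_even hv.2.2, sg_even hw.1, sg_even hw.2.1, sg_even hw.2.2]
  refine ⟨by ring, by ring, by ring⟩

lemma emb_freiman {b : ℕ} {y y' u u' : Fin 7 → ℤ} (hy : y ∈ par b) (hy' : y' ∈ par b)
    (hu : u ∈ par b) (hu' : u' ∈ par b)
    (h : emb b y' * (emb b y)⁻¹ = emb b u' * (emb b u)⁻¹) :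
    (∀ i, y' i - y i = u' i - u i) ∧ qf y' - qf y = qf u' - qf u := by
  obtain ⟨a1, b1, c1⟩ := mul_inv_ev (emb_ev b y') (emb_ev b y)
  obtain ⟨a2, b2, c2⟩ := mul_inv_ev (emb_ev b u') (emb_ev b u)
  rw [h] at a1 b1 c1
  rw [a2] at a1
  rw [b2] at b1
  rw [c2] at c1
  simp only [emb] at a1 b1 c1
  rw [mem_par] at hy hy' hu hu'
  have hb : ∀ i, |y' i - y i - (u' i - u i)| < 2 * (b : ℤ) := by
    intro i
    have := hy i; have := hy' i; have := hu i; have := hu' i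
    rw [abs_lt]; constructor <;> omega
  have k1 := digit3 (B := 2 * (b : ℤ)) (p := y' 0 - y 0 - (u' 0 - u 0))
    (q := y' 1 - y 1 - (u' 1 - u 1)) (r := y' 2 - y 2 - (u' 2 - u 2)) (by linarith) (hb 0) (hb 1)
  have k2 := digit3 (B := 2 * (b : ℤ)) (p := y' 3 - y 3 - (u' 3 - u 3))
    (q := y' 4 - y 4 - (u' 4 - u 4)) (r := y' 5 - y 5 - (u' 5 - u 5)) (by linarith) (hb 3) (hb 4)
  have k3 := digit2 (B := 2 * (b : ℤ)) (p := y' 6 - y 6 - (u' 6 - u 6))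
    (q := qf y' - qf y - (qf u' - qf u)) (by linarith) (hb 6)
  refine ⟨?_, by linarith [k3.2]⟩
  intro i
  fin_cases i
  · simpa [sub_eq_zero] using k1.1
  · simpa [sub_eq_zero] using k1.2.1
  · simpa [sub_eq_zero] using k1.2.2
  · simpa [sub_eq_zero] using k2.1
  · simpa [sub_eq_zero] using k2.2.1
  · simpa [sub_eq_zero] using k2.2.2
  · simpa [sub_eq_zero] using k3.1

lemma emb_injOn (b : ℕ) : Set.InjOn (emb b) (par b) := by
  intro y hy y' hy' h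
  have := (emb_freiman hy hy' hy hy (by rw [h])).1
  funext i
  have := this i
  linarith

/-- the centres of the holes -/
noncomputable def sD (b : ℕ) : Finset PG := (par b).image (emb b)

lemma card_sD (b : ℕ) : (sD b).card = b ^ 7 := by
  rw [sD, Finset.card_image_of_injOn (emb_injOn b), card_par]

lemma sD_bd {b : ℕ} {d : PG} (hd : d ∈ sD b) : Bd (150 * (b : ℤ) ^ 3) d ∧ 10 ≤ d.a := by
  obtain ⟨y, hy, rfl⟩ := Finset.mem_image.1 hd
  rw [mem_par] at hy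
  have hb : (1 : ℤ) ≤ b := (hy 0).1.trans (hy 0).2
  have hq0 : 0 ≤ qf y := Finset.sum_nonneg (fun i _ => sq_nonneg _)
  have hq1 : qf y ≤ 7 * (b : ℤ) ^ 2 := by
    have : qf y ≤ ∑ _i : Fin 7, (b : ℤ) ^ 2 := by
      apply Finset.sum_le_sum
      intro i _
      have := hy i
      nlinarith
    simpa using this
  have key : ∀ p q r : ℤ, 1 ≤ p → p ≤ b → 1 ≤ q → q ≤ b → 1 ≤ r → r ≤ b →
      1 ≤ p + 2 * b * (q + 2 * b * r) ∧ p + 2 * b * (q + 2 * b * r) ≤ 7 * (b : ℤ) ^ 3 := by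
    intro p q r h1 h2 h3 h4 h5 h6
    have e1 : 0 ≤ q + 2 * b * r := by positivity
    have e2 : q + 2 * b * r ≤ 3 * (b : ℤ) ^ 2 := by nlinarith
    have e3 : (b : ℤ) ≤ (b : ℤ) ^ 3 := by nlinarith [sq_nonneg (b : ℤ), mul_nonneg e1 e1]
    constructor
    · have : 0 ≤ 2 * (b : ℤ) * (q + 2 * b * r) := by positivity
      linarith
    · nlinarith
  have k1 := key _ _ _ (hy 0).1 (hy 0).2 (hy 1).1 (hy 1).2 (hy 2).1 (hy 2).2
  have k2 := key _ _ _ (hy 3).1 (hy 3).2 (hy 4).1 (hy 4).2 (hy 5).1 (hy 5).2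
  have e3 : (b : ℤ) ≤ (b : ℤ) ^ 3 := by nlinarith [sq_nonneg (b : ℤ)]
  have k3 : 0 ≤ y 6 + 2 * b * qf y ∧ y 6 + 2 * b * qf y ≤ 15 * (b : ℤ) ^ 3 := by
    have := hy 6
    constructor
    · have : 0 ≤ 2 * (b : ℤ) * qf y := by positivity
      linarith
    · nlinarith
  simp only [Bd, emb]
  refine ⟨⟨⟨by linarith, by linarith⟩, ⟨by linarith, by linarith⟩, ⟨by linarith, by linarith⟩⟩,
    by linarith⟩

lemma sD_sep {b : ℕ} {d d' : PG} (hd : d ∈ sD b) (hd' : d' ∈ sD b) (h : Bd 8 (d' * d⁻¹)) :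
    d' = d := by
  obtain ⟨y, hy, rfl⟩ := Finset.mem_image.1 hd
  obtain ⟨y', hy', rfl⟩ := Finset.mem_image.1 hd'
  obtain ⟨a1, b1, c1⟩ := mul_inv_ev (emb_ev b y') (emb_ev b y)
  simp only [Bd, a1, b1, c1] at h
  simp only [emb] at h ⊢
  ext <;> simp only <;> omega

lemma sD_rep (b : ℕ) (g : PG) (hg : g ≠ 1) :
    ((sD b).filter (fun d => g * d ∈ sD b)).card ≤ b ^ 6 := by
  rcases ((sD b).filter (fun d => g * d ∈ sD b)).eq_empty_or_nonempty with h | ⟨d0, hd0⟩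
  · rw [h]; simp
  obtain ⟨h1, h2⟩ := Finset.mem_filter.1 hd0
  obtain ⟨u, hu, rfl⟩ := Finset.mem_image.1 h1
  obtain ⟨u', hu', e⟩ := Finset.mem_image.1 h2
  have hg' : emb b u' * (emb b u)⁻¹ = g := by rw [e]; simp
  have hne : ∃ i, u' i - u i ≠ 0 := by
    by_contra hcon
    push Not at hcon
    have : u' = u := funext (fun i => by linarith [hcon i])
    rw [this] at hg'
    exact hg (by rw [← hg']; simp)
  obtain ⟨i, hi⟩ := hne
  have hsub : (sD b).filter (fun d => g * d ∈ sD b) ⊆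
      ((par b).filter (fun y => qf (fun j => y j + (u' j - u j)) - qf y = qf u' - qf u)).image
        (emb b) := by
    intro d hd
    obtain ⟨h1, h2⟩ := Finset.mem_filter.1 hd
    obtain ⟨y, hy, rfl⟩ := Finset.mem_image.1 h1
    obtain ⟨y', hy', e'⟩ := Finset.mem_image.1 h2
    have := emb_freiman hy hy' hu hu' (by rw [hg', e']; simp)
    refine Finset.mem_image.2 ⟨y, Finset.mem_filter.2 ⟨hy, ?_⟩, rfl⟩
    have e2 : (fun j => y j + (u' j - u j)) = y' := funext (fun j => by linarith [this.1 j])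
    rw [e2]; exact this.2
  refine (Finset.card_le_card hsub).trans (Finset.card_image_le.trans ?_)
  have hc : (Fintype.piFinset (fun _ : Fin 6 => Icc (1 : ℤ) b)).card = b ^ 6 := by simp
  rw [← hc]
  apply Finset.card_le_card_of_injOn (fun y j => y (i.succAbove j))
  · intro y hy
    have := mem_par.1 (Finset.mem_filter.1 hy).1
    rw [Finset.mem_coe, Fintype.mem_piFinset]
    exact fun j => Finset.mem_Icc.2 (this _)
  · intro y hy z hz h
    have e1 := (Finset.mem_filter.1 hy).2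
    have e2 := (Finset.mem_filter.1 hz).2
    have hj : ∀ j, y (i.succAbove j) = z (i.succAbove j) := fun j => congrFun h j
    simp only [qf] at e1 e2
    rw [Fin.sum_univ_succAbove _ i, Fin.sum_univ_succAbove (fun j => y j ^ 2) i] at e1
    rw [Fin.sum_univ_succAbove _ i, Fin.sum_univ_succAbove (fun j => z j ^ 2) i] at e2
    simp only [hj] at e1
    have e3 : (u' i - u i) * (y i - z i) = 0 := by linarith
    have e4 : y i = z i := by
      rcases mul_eq_zero.1 e3 with h | h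
      · exact absurd h hi
      · linarith
    funext j
    rcases Fin.eq_self_or_eq_succAbove i j with rfl | ⟨k, rfl⟩
    · exact e4
    · exact hj k

end Pool.Agent.Lib.MP_587a88_co
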