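import Pool.Agent.Lib.MP_587a88_co.Abstract
import Pool.Agent.Lib.MP_587a88_co.Sets

/-!
The counterexample: a finite set `S` containing `1` in the Promislow group and a set `X` with
eight elements such that every set `A` with seven elements has `|A * S| ≥ |X * S|`.
-/

set_option autoImplicit false
open Pointwise Finset

namespace Pool.Agent.Lib.MP_587a88_co

theorem exists_set (b R : ℕ) (hR : 150 * b ^ 3 + 6 ≤ R)
    (n7 : (2 * (4 * R) + 2 * 5 + 1) ^ 3 + 8 * 8 * b ^ 6 ≤ (2 * (4 * R) + 1) ^ 3 + b ^ 7)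
    (n8 : (2 * (4 * R) + 2 * 5 + 1) ^ 3 + 2 * 8 * b ^ 7 ≤
      (2 * (4 * R) + 1) ^ 3 + (R + 1) ^ 3 + b ^ 7) :
    ∃ S : Finset PG, (1 : PG) ∈ S ∧ ∀ A : Finset PG, A.card = 7 →
      (sX * S).card ≤ (A * S).card := by
  have hR' : 150 * (b : ℤ) ^ 3 + 6 ≤ R := by exact_mod_cast hR
  have hb0 : (0 : ℤ) ≤ (b : ℤ) ^ 3 := by positivity
  set W : Finset PG := sS * box (4 * R) with hW
  have hW1 : box (4 * R) ⊆ W := by
    intro t ht
    have := Finset.mul_mem_mul (mem_sS.2 lS_one) ht
    rwa [one_mul] at this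
  have hW2 : W ⊆ box (4 * R + 3) := by
    intro w hw
    obtain ⟨s, hs, t, ht, rfl⟩ := Finset.mem_mul.1 hw
    rw [mem_box] at *
    exact ((lS_bd s (mem_sS.1 hs)).mul ht).mono (by omega)
  have hW3 : sX * W ⊆ box (((4 * R : ℕ) : ℤ) + (5 : ℕ)) := by
    intro w hw
    obtain ⟨s, hs, t, ht, rfl⟩ := Finset.mem_mul.1 hw
    have ht' := hW2 ht
    rw [mem_box] at *
    exact ((lX_bd s (mem_sX.1 hs)).mul ht').mono (by push_cast; omega)
  have hX : ∀ x ∈ sX, Bd 2 x := fun x hx => lX_bd x (mem_sX.1 hx)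
  have c1 := Finset.card_le_card hW1
  have c3 := Finset.card_le_card hW3
  have c4 := card_box_add (4 * R) 5
  have c5 : (box ((4 * R : ℕ) : ℤ)).card = (box (4 * R)).card := by push_cast; rfl
  refine ⟨W \ (sX⁻¹ * sD b), ?_, ?_⟩
  · refine Finset.mem_sdiff.2 ⟨hW1 (mem_box.2 ?_), ?_⟩
    · simp only [Bd, one_a, one_b, one_c]; omega
    · intro h
      obtain ⟨y, hy, d, hd, e⟩ := mem_holes.1 h
      have e' : y = d := by
        have : y * 1 = y * (y⁻¹ * d) := by rw [← e]
        simpa using this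
      have h1 := (sD_bd hd).2
      have h2 := hX y hy
      rw [e'] at h2
      simp only [Bd] at h2
      omega
  · intro A hA
    apply abstract_main sX W (sD b) (b ^ 6) ((R + 1) ^ 3)
    · rw [sX_card]; norm_num
    · intro x hx w hw
      obtain ⟨s, hs, t, ht, rfl⟩ := Finset.mem_mul.1 hw
      obtain ⟨x', hx', hne, hmem⟩ := lX_nup x (mem_sX.1 hx) s (mem_sS.1 hs)
      refine ⟨x', mem_sX.2 hx', hne, ?_⟩
      have := Finset.mul_mem_mul (mem_sS.2 hmem) ht
      simpa [mul_assoc] using this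
    · intro a ha y hy hay
      obtain ⟨u, hu, v, hv, huv, h1, h2⟩ := lX_prog a (mem_sX.1 ha) y (mem_sX.1 hy) hay
      exact ⟨u, mem_sX.2 hu, v, mem_sX.2 hv, huv, fun h => h1 (mem_sX.1 h),
        fun h => h2 (mem_sX.1 h)⟩
    · intro a ha a' ha' y hy d hd
      apply hW1
      rw [mem_box]
      exact ((((hX a' ha').inv.mul (hX a ha)).mul (hX y hy).inv).mul (sD_bd hd).1).mono (by omega)
    · intro d hd d' hd' y' hy' a' ha' a ha y hy e
      apply sD_sep hd hd'
      rw [e]
      exact ((((hX y' hy').mul (hX a' ha').inv).mul (hX a ha)).mul (hX y hy).inv).mono (by omega)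
    · exact sD_rep b
    · intro g
      by_cases hg : Bd (3 * R) g
      · left
        intro y hy d hd
        apply hW1
        rw [mem_box]
        exact (hg.mul ((hX y hy).inv.mul (sD_bd hd).1)).mono (by omega)
      · right
        exact far_translate W R (by omega) hW1 hW2 g hg
    · rw [sX_card, card_sD]; omega
    · rw [sX_card, card_sD]; omega
    · rw [sX_card, hA]

theorem exists_set' : ∃ S : Finset PG, (1 : PG) ∈ S ∧ ∀ A : Finset PG, A.card = 7 →
    (sX * S).card ≤ (A * S).card :=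
  exists_set (10 ^ 8) (150 * (10 ^ 8) ^ 3 + 6) le_rfl (by norm_num) (by norm_num)

end Pool.Agent.Lib.MP_587a88_co
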