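import Mathlib

/-!
The Promislow (Hantzsche-Wendt) group, realised on the integer vectors with even coordinate sum
with the product `(v * w)_1 = v_1 + (-1)^(v_3) w_1`, `(v * w)_2 = v_2 + (-1)^(v_1) w_2`,
`(v * w)_3 = v_3 + (-1)^(v_2) w_3`.
-/

set_option autoImplicit false
open Pointwise Finset

namespace Pool.Agent.Lib.MP_587a88_co

/-- the sign `(-1)^x` -/
def sg (x : ℤ) : ℤ := if x % 2 = 0 then 1 else -1

lemma sg_cases (x : ℤ) : (x % 2 = 0 ∧ sg x = 1) ∨ (x % 2 = 1 ∧ sg x = -1) := by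
  unfold sg
  split_ifs with h
  · exact Or.inl ⟨h, rfl⟩
  · exact Or.inr ⟨by omega, rfl⟩

lemma sg_even {x : ℤ} (h : x % 2 = 0) : sg x = 1 := by simp [sg, h]

lemma sg_odd {x : ℤ} (h : x % 2 = 1) : sg x = -1 := by simp [sg, h]

lemma sg_add (x y z : ℤ) : sg (x + sg y * z) = sg x * sg z := by
  rcases sg_cases x with ⟨h1, e1⟩ | ⟨h1, e1⟩ <;>
  rcases sg_cases y with ⟨h2, e2⟩ | ⟨h2, e2⟩ <;>
  rcases sg_cases z with ⟨h3, e3⟩ | ⟨h3, e3⟩ <;>
  rw [e1, e2, e3] <;>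
  first
    | (rw [sg_even (by omega)]; norm_num)
    | (rw [sg_odd (by omega)]; norm_num)

lemma sg_neg (x y : ℤ) : sg (-(sg y * x)) = sg x := by
  rcases sg_cases x with ⟨h1, e1⟩ | ⟨h1, e1⟩ <;>
  rcases sg_cases y with ⟨h2, e2⟩ | ⟨h2, e2⟩ <;>
  rw [e1, e2] <;>
  first
    | exact sg_even (by omega)
    | exact sg_odd (by omega)

lemma sg_sq (x : ℤ) : sg x * sg x = 1 := by
  rcases sg_cases x with ⟨_, e1⟩ | ⟨_, e1⟩ <;> rw [e1] <;> norm_num

@[ext] structure PG where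
  a : ℤ
  b : ℤ
  c : ℤ
  h : (a + b + c) % 2 = 0

instance : DecidableEq PG := fun v w =>
  decidable_of_iff (v.a = w.a ∧ v.b = w.b ∧ v.c = w.c)
    ⟨fun h => PG.ext h.1 h.2.1 h.2.2, fun h => by subst h; exact ⟨rfl, rfl, rfl⟩⟩

lemma mul_par (v w : PG) :
    (v.a + sg v.c * w.a + (v.b + sg v.a * w.b) + (v.c + sg v.b * w.c)) % 2 = 0 := by
  have h1 := v.h
  have h2 := w.h
  rcases sg_cases v.a with ⟨_, e1⟩ | ⟨_, e1⟩ <;>
  rcases sg_cases v.b with ⟨_, e2⟩ | ⟨_, e2⟩ <;>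
  rcases sg_cases v.c with ⟨_, e3⟩ | ⟨_, e3⟩ <;>
  rw [e1, e2, e3] <;> omega

lemma inv_par (v : PG) :
    (-(sg v.c * v.a) + -(sg v.a * v.b) + -(sg v.b * v.c)) % 2 = 0 := by
  have h1 := v.h
  rcases sg_cases v.a with ⟨_, e1⟩ | ⟨_, e1⟩ <;>
  rcases sg_cases v.b with ⟨_, e2⟩ | ⟨_, e2⟩ <;>
  rcases sg_cases v.c with ⟨_, e3⟩ | ⟨_, e3⟩ <;>
  rw [e1, e2, e3] <;> omega

instance : Mul PG :=
  ⟨fun v w => ⟨v.a + sg v.c * w.a, v.b + sg v.a * w.b, v.c + sg v.b * w.c, mul_par v w⟩⟩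

instance : One PG := ⟨⟨0, 0, 0, by norm_num⟩⟩

instance : Inv PG :=
  ⟨fun v => ⟨-(sg v.c * v.a), -(sg v.a * v.b), -(sg v.b * v.c), inv_par v⟩⟩

@[simp] lemma mul_a (v w : PG) : (v * w).a = v.a + sg v.c * w.a := rfl
@[simp] lemma mul_b (v w : PG) : (v * w).b = v.b + sg v.a * w.b := rfl
@[simp] lemma mul_c (v w : PG) : (v * w).c = v.c + sg v.b * w.c := rfl
@[simp] lemma one_a : (1 : PG).a = 0 := rfl
@[simp] lemma one_b : (1 : PG).b = 0 := rfl
@[simp] lemma one_c : (1 : PG).c = 0 := rfl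
@[simp] lemma inv_a (v : PG) : (v⁻¹).a = -(sg v.c * v.a) := rfl
@[simp] lemma inv_b (v : PG) : (v⁻¹).b = -(sg v.a * v.b) := rfl
@[simp] lemma inv_c (v : PG) : (v⁻¹).c = -(sg v.b * v.c) := rfl

lemma sg_zero : sg 0 = 1 := by simp [sg]

instance : Group PG := Group.ofLeftAxioms
  (fun u v w => by
    ext <;> simp only [mul_a, mul_b, mul_c, sg_add] <;> ring)
  (fun v => by
    ext <;> simp [sg_zero])
  (fun v => by
    ext <;> simp only [mul_a, mul_b, mul_c, inv_a, inv_b, inv_c, one_a, one_b, one_c, sg_neg] <;>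
      ring)

/-- all three coordinates even -/
def Ev (v : PG) : Prop := v.a % 2 = 0 ∧ v.b % 2 = 0 ∧ v.c % 2 = 0

lemma pow_even (v : PG) (hv : Ev v) (n : ℕ) :
    (v ^ n).a = n * v.a ∧ (v ^ n).b = n * v.b ∧ (v ^ n).c = n * v.c := by
  induction n with
  | zero => simp
  | succ n ih =>
    rw [pow_succ']
    simp only [mul_a, mul_b, mul_c, sg_even hv.1, sg_even hv.2.1, sg_even hv.2.2, ih.1, ih.2.1,
      ih.2.2]
    push_cast
    refine ⟨by ring, by ring, by ring⟩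

theorem torsionFree (g : PG) (hg : g ≠ 1) : ¬ IsOfFinOrder g := by
  intro h
  have h2 : IsOfFinOrder (g * g) := by
    have := h.pow (n := 2)
    rwa [pow_two] at this
  obtain ⟨n, hn, hpow⟩ := isOfFinOrder_iff_pow_eq_one.1 h2
  have hh := g.h
  have hev : Ev (g * g) := by
    simp only [Ev, mul_a, mul_b, mul_c]
    rcases sg_cases g.a with ⟨_, e1⟩ | ⟨_, e1⟩ <;>
    rcases sg_cases g.b with ⟨_, e2⟩ | ⟨_, e2⟩ <;>
    rcases sg_cases g.c with ⟨_, e3⟩ | ⟨_, e3⟩ <;>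
    rw [e1, e2, e3] <;> omega
  obtain ⟨ea, eb, ec⟩ := pow_even _ hev n
  rw [hpow] at ea eb ec
  have hn' : (n : ℤ) ≠ 0 := by exact_mod_cast hn.ne'
  have za : (g * g).a = 0 := by
    rcases mul_eq_zero.1 ea.symm with h | h
    · exact absurd h hn'
    · exact h
  have zb : (g * g).b = 0 := by
    rcases mul_eq_zero.1 eb.symm with h | h
    · exact absurd h hn'
    · exact h
  have zc : (g * g).c = 0 := by
    rcases mul_eq_zero.1 ec.symm with h | h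
    · exact absurd h hn'
    · exact h
  apply hg
  simp only [mul_a, mul_b, mul_c] at za zb zc
  rcases sg_cases g.a with ⟨_, e1⟩ | ⟨_, e1⟩ <;>
  rcases sg_cases g.b with ⟨_, e2⟩ | ⟨_, e2⟩ <;>
  rcases sg_cases g.c with ⟨_, e3⟩ | ⟨_, e3⟩ <;>
  rw [e1] at zb <;> rw [e2] at zc <;> rw [e3] at za <;>
  ext <;> simp only [one_a, one_b, one_c] <;> omega

instance : Nontrivial PG := ⟨⟨1, ⟨2, 0, 0, by norm_num⟩, by decide⟩⟩

/-- sup norm at most `R` -/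
def Bd (R : ℤ) (v : PG) : Prop :=
  (-R ≤ v.a ∧ v.a ≤ R) ∧ (-R ≤ v.b ∧ v.b ≤ R) ∧ (-R ≤ v.c ∧ v.c ≤ R)

instance (R : ℤ) (v : PG) : Decidable (Bd R v) := by unfold Bd; infer_instance

lemma Bd.mul {R T : ℤ} {v w : PG} (hv : Bd R v) (hw : Bd T w) : Bd (R + T) (v * w) := by
  unfold Bd at *
  simp only [mul_a, mul_b, mul_c]
  rcases sg_cases v.a with ⟨_, e1⟩ | ⟨_, e1⟩ <;>
  rcases sg_cases v.b with ⟨_, e2⟩ | ⟨_, e2⟩ <;>
  rcases sg_cases v.c with ⟨_, e3⟩ | ⟨_, e3⟩ <;>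
  rw [e1, e2, e3] <;> omega

lemma Bd.inv {R : ℤ} {v : PG} (hv : Bd R v) : Bd R v⁻¹ := by
  unfold Bd at *
  simp only [inv_a, inv_b, inv_c]
  rcases sg_cases v.a with ⟨_, e1⟩ | ⟨_, e1⟩ <;>
  rcases sg_cases v.b with ⟨_, e2⟩ | ⟨_, e2⟩ <;>
  rcases sg_cases v.c with ⟨_, e3⟩ | ⟨_, e3⟩ <;>
  rw [e1, e2, e3] <;> omega

lemma Bd.mono {R T : ℤ} {v : PG} (hv : Bd R v) (h : R ≤ T) : Bd T v := by
  unfold Bd at *
  omega

/-- coordinates -/
def co (v : PG) : ℤ × ℤ × ℤ := (v.a, v.b, v.c)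

lemma co_inj : Function.Injective co := by
  intro v w h
  simp only [co, Prod.mk.injEq] at h
  exact PG.ext h.1 h.2.1 h.2.2

/-- the integer cube -/
noncomputable def cube (l r : ℤ) : Finset (ℤ × ℤ × ℤ) := Icc l r ×ˢ Icc l r ×ˢ Icc l r

lemma card_cube (l r : ℤ) : (cube l r).card = (r + 1 - l).toNat ^ 3 := by
  simp only [cube, Finset.card_product, Int.card_Icc]
  ring

lemma mem_cube {l r : ℤ} {u : ℤ × ℤ × ℤ} : u ∈ cube l r ↔
    (l ≤ u.1 ∧ u.1 ≤ r) ∧ (l ≤ u.2.1 ∧ u.2.1 ≤ r) ∧ (l ≤ u.2.2 ∧ u.2.2 ≤ r) := by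
  simp [cube]

/-- the box of radius `L` in the group -/
noncomputable def box (L : ℤ) : Finset PG := (cube (-L) L).preimage co co_inj.injOn

lemma mem_box {L : ℤ} {v : PG} : v ∈ box L ↔ Bd L v := by
  simp [box, mem_cube, Bd, co]

lemma card_box_add (L t : ℕ) :
    (box ((L : ℤ) + t)).card + (2 * L + 1) ^ 3 ≤ (box L).card + (2 * L + 2 * t + 1) ^ 3 := by
  have h1 : (box ((L : ℤ) + t)).card ≤ (box ((L : ℤ) + t) \ box L).card + (box L).card :=
    Finset.card_le_card_sdiff_add_card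
  have h2 : (box ((L : ℤ) + t) \ box L).card ≤
      (cube (-((L : ℤ) + t)) ((L : ℤ) + t) \ cube (-(L : ℤ)) L).card := by
    apply Finset.card_le_card_of_injOn co
    · intro v hv
      simp only [Finset.coe_sdiff, Set.mem_sdiff, Finset.mem_coe, mem_box] at hv ⊢
      exact ⟨mem_cube.2 hv.1, fun h => hv.2 (mem_cube.1 h)⟩
    · exact co_inj.injOn
  have h3 : cube (-(L : ℤ)) L ⊆ cube (-((L : ℤ) + t)) ((L : ℤ) + t) := by
    intro u hu
    rw [mem_cube] at *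
    omega
  have h4 := Finset.card_sdiff_add_card_eq_card h3
  rw [card_cube, card_cube] at h4
  have e1 : ((L : ℤ) + 1 - -(L : ℤ)).toNat = 2 * L + 1 := by omega
  have e2 : ((L : ℤ) + t + 1 - -((L : ℤ) + t)).toNat = 2 * L + 2 * t + 1 := by omega
  rw [e1, e2] at h4
  omega

/-- a far translate of a set squeezed between two boxes sticks out a lot -/
lemma far_translate (W : Finset PG) (R : ℕ) (hR : 3 ≤ R)
    (h1 : box (4 * R) ⊆ W) (h2 : W ⊆ box (4 * R + 3)) (g : PG) (hg : ¬ Bd (3 * R) g) :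
    (R + 1) ^ 3 ≤ ((W.image (fun w => g * w)) \ W).card := by
  have e : (cube (R : ℤ) (2 * R)).card = (R + 1) ^ 3 := by
    rw [card_cube]
    congr 1
    omega
  rw [← e]
  let s : ℤ → ℤ := fun x => if 0 ≤ x then 1 else -1
  let t : ℤ × ℤ × ℤ → PG := fun u =>
    ⟨2 * (sg g.c * s g.a * u.1), 2 * (sg g.a * s g.b * u.2.1), 2 * (sg g.b * s g.c * u.2.2),
      by omega⟩
  have ha : ∀ u, (g * t u).a = g.a + 2 * s g.a * u.1 := by
    intro u
    simp only [mul_a, t]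
    linear_combination (2 * s g.a * u.1) * sg_sq g.c
  have hb : ∀ u, (g * t u).b = g.b + 2 * s g.b * u.2.1 := by
    intro u
    simp only [mul_b, t]
    linear_combination (2 * s g.b * u.2.1) * sg_sq g.a
  have hc : ∀ u, (g * t u).c = g.c + 2 * s g.c * u.2.2 := by
    intro u
    simp only [mul_c, t]
    linear_combination (2 * s g.c * u.2.2) * sg_sq g.b
  have hs : ∀ x, (0 ≤ x ∧ s x = 1) ∨ (x < 0 ∧ s x = -1) := by
    intro x
    by_cases h : 0 ≤ x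
    · left; simp [s, h]
    · right; simp [s, h]; omega
  apply Finset.card_le_card_of_injOn (fun u => g * t u)
  · intro u hu
    rw [Finset.mem_coe, mem_cube] at hu
    simp only [Finset.coe_sdiff, Set.mem_sdiff, Finset.mem_coe]
    constructor
    · apply Finset.mem_image_of_mem
      apply h1
      rw [mem_box]
      simp only [Bd, t]
      rcases sg_cases g.a with ⟨_, e1⟩ | ⟨_, e1⟩ <;>
      rcases sg_cases g.b with ⟨_, e2⟩ | ⟨_, e2⟩ <;>
      rcases sg_cases g.c with ⟨_, e3⟩ | ⟨_, e3⟩ <;>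
      rcases hs g.a with ⟨_, f1⟩ | ⟨_, f1⟩ <;>
      rcases hs g.b with ⟨_, f2⟩ | ⟨_, f2⟩ <;>
      rcases hs g.c with ⟨_, f3⟩ | ⟨_, f3⟩ <;>
      rw [e1, e2, e3, f1, f2, f3] <;> omega
    · intro hW
      have := mem_box.1 (h2 hW)
      apply hg
      simp only [Bd, ha, hb, hc] at this ⊢
      rcases hs g.a with ⟨_, f1⟩ | ⟨_, f1⟩ <;>
      rcases hs g.b with ⟨_, f2⟩ | ⟨_, f2⟩ <;>
      rcases hs g.c with ⟨_, f3⟩ | ⟨_, f3⟩ <;>
      rw [f1, f2, f3] at this <;> omega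
  · intro u _ u' _ h
    have e1 := ha u
    have e2 := hb u
    have e3 := hc u
    simp only at h
    rw [h, ha] at e1
    rw [h, hb] at e2
    rw [h, hc] at e3
    rcases hs g.a with ⟨_, f1⟩ | ⟨_, f1⟩ <;>
    rcases hs g.b with ⟨_, f2⟩ | ⟨_, f2⟩ <;>
    rcases hs g.c with ⟨_, f3⟩ | ⟨_, f3⟩ <;>
    rw [f1] at e1 <;> rw [f2] at e2 <;> rw [f3] at e3 <;>
    exact Prod.ext (by omega) (Prod.ext (by omega) (by omega))

end Pool.Agent.Lib.MP_587a88_co
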